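import Pool.Agent.K1H35.SH.Stm2
import Pool.Agent.K1H35.SH.Fin

/-!
Project SQ (MP_0fd30f_pr), piece AGG: all bad triples from blocks.
-/

set_option autoImplicit false

namespace Pool.Agent.K1H3.SQ

open Finset Pool.Agent.K1H35.SH

theorem t_AGG (hB : S_BLK) (hT : S_BTR) : S_AGG := by
  classical
  intro n d L t M B c c2 Dm G H f hnL hL ht hB2 hG hTw hQ hcod h1 h2 h3 h4 h5
  have hcg : ∀ x y : Fin n, codeg G x y = (nb G x ∩ nb G y).card := by
    intro x y
    unfold codeg
    congr
  obtain ⟨χ, hχ1, hχ2⟩ := hB n B L t M c c2 (fun x y => nb G x ∩ nb G y) hnL hL hB2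
    (fun x y hxy => by
      have h := hcod x y hxy
      rw [hcg] at h
      exact h) h1 h2 h3 h4 h5
  have key : ∀ b b' : Fin B,
      (t - 2) * ∑ z ∈ univ.filter (fun v => χ v = b), ∑ z' ∈ univ.filter (fun v => χ v = b'), bad G f z z' ≤
        16 * c ^ 2 * Dm := by
    intro b b'
    set Z : Finset (Fin n) := univ.filter (fun v => χ v = b ∨ χ v = b') with hZ
    have hcard : ∀ b : Fin B, (univ.filter (fun v => χ v = b)).card ≤ c2 := by
      intro b
      have h := hχ2 b
      rw [← Set.ncard_coe_finset]
      convert h using 2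
      ext v
      simp
    have hZc : Z.card ≤ 2 * c2 := by
      have h6 : Z = univ.filter (fun v => χ v = b) ∪ univ.filter (fun v => χ v = b') := by
        rw [hZ, filter_or]
      rw [h6]
      have h7 := card_union_le (univ.filter (fun v => χ v = b)) (univ.filter (fun v => χ v = b'))
      have h8 := hcard b
      have h9 := hcard b'
      omega
    have hset : ∀ x y : Fin n, ({z ∈ Z | G.Adj z x ∧ G.Adj z y} : Set (Fin n)) =
        ({v ∈ nb G x ∩ nb G y | χ v = b} : Set (Fin n)) ∪ ({v ∈ nb G x ∩ nb G y | χ v = b'} : Set (Fin n)) := by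
      intro x y
      ext z
      simp only [Set.mem_setOf_eq, Set.mem_union, hZ, mem_filter, mem_univ, true_and, mem_inter, mem_nb,
        G.adj_comm z x, G.adj_comm z y]
      tauto
    have h := hT n d t (2 * c) (2 * c2) Dm G H f Z ht hG hTw hQ hZc
      (fun x y hxy => (hcod x y hxy).1) (by
        intro x y hxy
        have e1 := hχ1 x y hxy b
        have e2 := hχ1 x y hxy b'
        rw [hset x y]
        constructor
        · exact e1.1.trans (Set.ncard_le_ncard Set.subset_union_left (Set.toFinite _))
        · have e3 := Set.ncard_union_le ({v ∈ nb G x ∩ nb G y | χ v = b} : Set (Fin n))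
            ({v ∈ nb G x ∩ nb G y | χ v = b'} : Set (Fin n))
          have e4 := e1.2
          have e5 := e2.2
          calc _ ≤ _ := e3
            _ ≤ c + c := Nat.add_le_add e4 e5
            _ = 2 * c := by ring)
    calc (t - 2) * ∑ z ∈ univ.filter (fun v => χ v = b), ∑ z' ∈ univ.filter (fun v => χ v = b'), bad G f z z'
        ≤ (t - 2) * ∑ z ∈ Z, ∑ z' ∈ Z, bad G f z z' := by
          apply Nat.mul_le_mul_left
          have s1 : univ.filter (fun v => χ v = b) ⊆ Z := by
            intro v hv
            rw [mem_filter] at hv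
            rw [hZ, mem_filter]
            exact ⟨mem_univ _, Or.inl hv.2⟩
          have s2 : univ.filter (fun v => χ v = b') ⊆ Z := by
            intro v hv
            rw [mem_filter] at hv
            rw [hZ, mem_filter]
            exact ⟨mem_univ _, Or.inr hv.2⟩
          calc _ ≤ ∑ z ∈ univ.filter (fun v => χ v = b), ∑ z' ∈ Z, bad G f z z' :=
                sum_le_sum fun z _ => sum_le_sum_of_subset s2
            _ ≤ _ := sum_le_sum_of_subset s1
      _ ≤ 4 * (2 * c) ^ 2 * Dm := h
      _ = 16 * c ^ 2 * Dm := by ring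
  have hsum : ∑ z, ∑ z', bad G f z z' = ∑ b : Fin B, ∑ b' : Fin B,
      ∑ z ∈ univ.filter (fun v => χ v = b), ∑ z' ∈ univ.filter (fun v => χ v = b'), bad G f z z' := by
    rw [← Finset.sum_fiberwise univ χ]
    refine sum_congr rfl fun b _ => ?_
    rw [Finset.sum_comm (s := univ) (t := univ.filter (fun v => χ v = b))]
    refine sum_congr rfl fun z _ => ?_
    rw [← Finset.sum_fiberwise univ χ]
  rw [hsum, mul_sum]
  calc ∑ b : Fin B, (t - 2) * ∑ b' : Fin B,
      ∑ z ∈ univ.filter (fun v => χ v = b), ∑ z' ∈ univ.filter (fun v => χ v = b'), bad G f z z'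
      ≤ ∑ b : Fin B, ∑ b' : Fin B, 16 * c ^ 2 * Dm := by
        refine sum_le_sum fun b _ => ?_
        rw [mul_sum]
        exact sum_le_sum fun b' _ => key b b'
    _ = 16 * B ^ 2 * c ^ 2 * Dm := by
        simp only [sum_const, card_univ, Fintype.card_fin, smul_eq_mul]
        ring

end Pool.Agent.K1H3.SQ
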